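import Pool.Agent.Helper2.AG.Defs
import Pool.Agent.Helper43.PW.DimR
import Pool.Agent.Helper81.PW.Large
import Pool.Agent.Helper27.TF.BcdMain

/-!
Project AG (MP_b8862a_ag), block T5: the numbers `s` of the shape `ShD1` are rare.
-/

set_option linter.unusedSectionVars false
set_option linter.unusedVariables false

open Module PF TF PW

namespace AG

/-- the ordered integral vector with two boxes, `q` the sum of the squares -/
def st14 (m q : ℕ) (i : Fin m) : ℤ := if q = 4 then (if i.val = 0 then 2 else 0) else (if i.val ≤ 1 then 1 else 0)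

theorem sum_single14 {m : ℕ} (f : ℤ → ℝ) (h0 : f 0 = 0) (z : Fin m → ℤ) (k : Fin m) (hj : ∀ j, j ≠ k → z j = 0) :
    ∑ i, f (z i) = f (z k) := by
  rw [Finset.sum_eq_single k]
  · intro i _ hi
    rw [hj i hi, h0]
  · intro h
    exact absurd (Finset.mem_univ k) h

theorem sum_pair14 {m : ℕ} (f : ℤ → ℝ) (h0 : f 0 = 0) (z : Fin m → ℤ) {k l : Fin m} (hkl : k ≠ l)
    (hj : ∀ j, j ≠ k → j ≠ l → z j = 0) : ∑ i, f (z i) = f (z k) + f (z l) := by
  rw [← Finset.add_sum_erase _ _ (Finset.mem_univ k),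
    ← Finset.add_sum_erase (Finset.univ.erase k) _ (Finset.mem_erase.2 ⟨hkl.symm, Finset.mem_univ l⟩),
    Finset.sum_eq_zero, add_zero]
  intro i hi
  rw [Finset.mem_erase, Finset.mem_erase] at hi
  rw [hj i hi.2.1 hi.1, h0]

theorem sum_abs_cast14 {m : ℕ} {z : Fin m → ℤ} (hz : ∑ i, |z i| = 2) : ∑ i, |(z i : ℝ)| = 2 := by
  have h1 : ((∑ i, |z i| : ℤ) : ℝ) = 2 := by rw [hz]; norm_num
  rw [← h1]
  push_cast
  rfl

theorem cases14 {m : ℕ} {z : Fin m → ℤ} (hz : ∑ i, |z i| = 2) : (∃ k, |z k| = 2 ∧ ∀ j, j ≠ k → z j = 0) ∨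
    (∃ k l, k ≠ l ∧ |z k| = 1 ∧ |z l| = 1 ∧ ∀ j, j ≠ k → j ≠ l → z j = 0) := by
  have hr := sum_abs_cast14 hz
  rcases small_z hz.le with h | ⟨k, hk, hj⟩ | h | h
  · rw [Finset.sum_eq_zero fun i _ => by rw [h i]; simp] at hr
    norm_num at hr
  · rw [sum_single14 (fun x => |(x : ℝ)|) (by simp) z k hj, ← Int.cast_abs, hk] at hr
    norm_num at hr
  · exact Or.inl h
  · exact Or.inr h

theorem sum_sq14 {m : ℕ} {z : Fin m → ℤ} (hz : ∑ i, |z i| = 2) :
    ∃ q : ℕ, (q = 2 ∨ q = 4) ∧ ∑ i, (z i : ℝ) ^ 2 = q := by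
  rcases cases14 hz with ⟨k, hk, hj⟩ | ⟨k, l, hkl, hk, hl, hj⟩
  · refine ⟨4, Or.inr rfl, ?_⟩
    rw [sum_single14 (fun x => (x : ℝ) ^ 2) (by norm_num) z k hj, ← sq_abs, ← Int.cast_abs, hk]
    norm_num
  · refine ⟨2, Or.inl rfl, ?_⟩
    rw [sum_pair14 (fun x => (x : ℝ) ^ 2) (by norm_num) z hkl hj, ← sq_abs, ← Int.cast_abs, hk, ← sq_abs (z l : ℝ),
      ← Int.cast_abs, hl]
    norm_num

theorem sum_max14 {m : ℕ} {z : Fin m → ℤ} (hz : ∑ i, |z i| = 2) {q : ℕ} (hq : ∑ i, (z i : ℝ) ^ 2 = q) :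
    ∑ p ∈ (Finset.univ : Finset (Fin m)).offDiag, max |(z p.1 : ℝ)| |(z p.2 : ℝ)| = 4 * m - 8 + q := by
  have hr := sum_abs_cast14 hz
  have hsum : ∑ p ∈ (Finset.univ : Finset (Fin m)).offDiag, (|(z p.1 : ℝ)| + |(z p.2 : ℝ)|) = 4 * m - 4 := by
    rw [sum_off (fun i j => |(z i : ℝ)| + |(z j : ℝ)|)]
    simp only [Finset.sum_add_distrib, Finset.sum_const, Finset.card_univ, Fintype.card_fin, nsmul_eq_mul]
    rw [← Finset.mul_sum, hr]
    ring
  have hmin : ∑ p ∈ (Finset.univ : Finset (Fin m)).offDiag, min |(z p.1 : ℝ)| |(z p.2 : ℝ)| = 4 - q := by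
    rcases cases14 hz with ⟨k, hk, hj⟩ | ⟨k, l, hkl, hk, hl, hj⟩
    · have h4 : (q : ℝ) = 4 := by
        rw [← hq, sum_single14 (fun x => (x : ℝ) ^ 2) (by norm_num) z k hj, ← sq_abs, ← Int.cast_abs, hk]
        norm_num
      rw [h4, sub_self]
      refine Finset.sum_eq_zero fun p hp => ?_
      have hp' := (Finset.mem_offDiag.1 hp).2.2
      by_cases h2 : p.1 = k
      · rw [hj p.2 fun h => hp' (h2.trans h.symm)]
        simp
      · rw [hj _ h2]
        simp
    · have h4 : (q : ℝ) = 2 := by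
        rw [← hq, sum_pair14 (fun x => (x : ℝ) ^ 2) (by norm_num) z hkl hj, ← sq_abs, ← Int.cast_abs, hk,
          ← sq_abs (z l : ℝ), ← Int.cast_abs, hl]
        norm_num
      rw [h4]
      have hk' : |(z k : ℝ)| = 1 := by rw [← Int.cast_abs, hk]; norm_num
      have hl' : |(z l : ℝ)| = 1 := by rw [← Int.cast_abs, hl]; norm_num
      have hsub : ({(k, l), (l, k)} : Finset (Fin m × Fin m)) ⊆ (Finset.univ : Finset (Fin m)).offDiag := by
        intro p hp
        rw [Finset.mem_insert, Finset.mem_singleton] at hp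
        rw [Finset.mem_offDiag]
        rcases hp with rfl | rfl
        · exact ⟨Finset.mem_univ _, Finset.mem_univ _, hkl⟩
        · exact ⟨Finset.mem_univ _, Finset.mem_univ _, hkl.symm⟩
      rw [← Finset.sum_subset hsub]
      · rw [Finset.sum_pair (by
          intro h
          rw [Prod.mk.injEq] at h
          exact hkl h.1)]
        simp only [hk', hl', min_self]
        norm_num
      · rintro ⟨i, j⟩ hp hn
        have hij := (Finset.mem_offDiag.1 hp).2.2
        simp only [Finset.mem_insert, Finset.mem_singleton, Prod.mk.injEq, not_or, not_and] at hn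
        simp only at hij ⊢
        by_cases hi : z i = 0
        · rw [hi]; simp
        by_cases hj0 : z j = 0
        · rw [hj0]; simp
        exfalso
        have h5 : i = k ∨ i = l := by
          by_contra h
          push Not at h
          exact hi (hj i h.1 h.2)
        have h6 : j = k ∨ j = l := by
          by_contra h
          push Not at h
          exact hj0 (hj j h.1 h.2)
        rcases h5 with h5 | h5 <;> rcases h6 with h6 | h6
        · exact hij (h5.trans h6.symm)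
        · exact hn.1 h5 h6
        · exact hn.2 h5 h6
        · exact hij (h5.trans h6.symm)
  have hmm : ∀ a b : ℝ, max a b = a + b - min a b := fun a b => by
    rcases le_total a b with h | h
    · rw [max_eq_right h, min_eq_left h]; ring
    · rw [max_eq_left h, min_eq_right h]; ring
  simp only [hmm]
  rw [Finset.sum_sub_distrib, hsum, hmin]
  ring

/-- an ordered vector with two boxes is standard -/
theorem eq_st14 {m : ℕ} (hm : 3 ≤ m) {x : Fin m → ℤ} (hs : ∀ i j, i < j → |x j| ≤ x i) (h1 : ∑ i, |x i| = 2)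
    {q : ℕ} (hq : q = 2 ∨ q = 4) (h2 : ∑ i, (x i : ℝ) ^ 2 = q) (i : Fin m) : x i = st14 m q i := by
  let i0 : Fin m := ⟨0, by omega⟩
  let i1 : Fin m := ⟨1, by omega⟩
  let i2 : Fin m := ⟨2, by omega⟩
  have h01 : i0 < i1 := by simp [i0, i1, Fin.lt_def]
  have h12 : i1 < i2 := by simp [i1, i2, Fin.lt_def]
  have hn0 : 0 ≤ x i0 := (abs_nonneg _).trans (hs i0 i1 h01)
  have hn1 : 0 ≤ x i1 := (abs_nonneg _).trans (hs i1 i2 h12)
  rcases cases14 h1 with ⟨k, hk, hj⟩ | ⟨k, l, hkl, hk, hl, hj⟩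
  · have h4 : (q : ℝ) = 4 := by
      rw [← h2, sum_single14 (fun x => (x : ℝ) ^ 2) (by norm_num) x k hj, ← sq_abs, ← Int.cast_abs, hk]
      norm_num
    have h4' : q = 4 := by exact_mod_cast h4
    have hk0 : k = i0 := by
      by_contra hne
      have h5 := hs i0 k (by
        rw [Fin.lt_def]
        have : k.val ≠ 0 := fun h => hne (Fin.ext h)
        simp only [i0]
        omega)
      rw [hk, hj i0 (Ne.symm hne)] at h5
      omega
    unfold st14
    rw [if_pos h4']
    by_cases hi : i = i0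
    · rw [hi, if_pos rfl]
      rw [hk0, abs_of_nonneg hn0] at hk
      exact hk
    · rw [hj i (by rw [hk0]; exact hi), if_neg]
      intro h
      exact hi (Fin.ext h)
  · have h4 : (q : ℝ) = 2 := by
      rw [← h2, sum_pair14 (fun x => (x : ℝ) ^ 2) (by norm_num) x hkl hj, ← sq_abs, ← Int.cast_abs, hk,
        ← sq_abs (x l : ℝ), ← Int.cast_abs, hl]
      norm_num
    have h4' : q ≠ 4 := by
      intro h
      rw [h] at h4
      norm_num at h4
    -- the entries different from zero are those with the indices 0 and 1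
    have hz : ∀ j, x j = 0 ∨ |x j| = 1 := by
      intro j
      by_cases h5 : j = k
      · right; rw [h5]; exact hk
      by_cases h6 : j = l
      · right; rw [h6]; exact hl
      · exact Or.inl (hj j h5 h6)
    have hdown : ∀ i j, i < j → x j ≠ 0 → x i = 1 := by
      intro i j hij hne
      have h5 := hs i j hij
      have h6 := Int.one_le_abs hne
      rcases hz i with h7 | h7
      · omega
      · rw [abs_of_nonneg (by omega)] at h7
        exact h7
    have hcard : ∀ a b c : Fin m, a ≠ b → a ≠ c → b ≠ c → x a = 0 ∨ x b = 0 ∨ x c = 0 := by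
      intro a b c hab hac hbc
      by_contra hcon
      push Not at hcon
      obtain ⟨ha, hb, hc⟩ := hcon
      have h5 : ∀ j, x j ≠ 0 → j = k ∨ j = l := by
        intro j hj'
        by_contra h
        push Not at h
        exact hj' (hj j h.1 h.2)
      rcases h5 a ha with ha | ha <;> rcases h5 b hb with hb | hb <;> rcases h5 c hc with hc | hc <;>
        first
          | exact hab (ha.trans hb.symm)
          | exact hac (ha.trans hc.symm)
          | exact hbc (hb.trans hc.symm)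
    have hbig : ∀ j : Fin m, 2 ≤ j.val → x j = 0 := by
      intro j hj2
      by_contra hne
      have h0j : i0 < j := by rw [Fin.lt_def]; simp only [i0]; omega
      have h1j : i1 < j := by rw [Fin.lt_def]; simp only [i1]; omega
      have h5 := hdown i0 j h0j hne
      have h6 := hdown i1 j h1j hne
      rcases hcard i0 i1 j h01.ne h0j.ne h1j.ne with h | h | h
      · omega
      · omega
      · exact hne h
    have hx1 : x i1 = 1 := by
      by_contra hne
      have h5 : x i1 = 0 := by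
        rcases hz i1 with h | h
        · exact h
        · rw [abs_of_nonneg hn1] at h
          exact absurd h hne
      have h6 : ∀ j, x j ≠ 0 → j = i0 := by
        intro j hj'
        by_contra h
        have h7 : j.val ≠ 0 := fun h' => h (Fin.ext h')
        by_cases h8 : j.val = 1
        · exact hj' (by rw [show j = i1 from Fin.ext h8]; exact h5)
        · exact hj' (hbig j (by omega))
      have h7 : x k ≠ 0 := fun h => by rw [h] at hk; simp at hk
      have h8 : x l ≠ 0 := fun h => by rw [h] at hl; simp at hl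
      exact hkl ((h6 k h7).trans (h6 l h8).symm)
    have hx0 : x i0 = 1 := hdown i0 i1 h01 (by rw [hx1]; norm_num)
    unfold st14
    rw [if_neg h4']
    by_cases hi0 : i = i0
    · rw [hi0, if_pos (by simp [i0])]
      exact hx0
    by_cases hi1 : i = i1
    · rw [hi1, if_pos (by simp [i1])]
      exact hx1
    have h7 : i.val ≠ 0 := fun h' => hi0 (Fin.ext h')
    have h8 : i.val ≠ 1 := fun h' => hi1 (Fin.ext h')
    rw [if_neg (by omega)]
    exact hbig i (by omega)

/-- the relation between `s` and the parameters -/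
def R14 (s m d q : ℕ) : Prop := ∃ n : ℕ, d ≤ 2 ∧ 9 ≤ m ∧ (q = 2 ∨ q = 4) ∧
  (n : ℝ) * PdR d m 0 = PdR d m (fun i => (st14 m q i : ℝ)) ∧ 0 < PdR d m 0 ∧
  (n : ℝ) * (4 * m - 8 + 2 * q + 2 * d) * m = 8 * s * (m + (2 * m * (m - 1) + (if d = 0 then (0 : ℝ) else 2 * (m : ℝ)))) ∧
  m ^ 2 ≤ 16 * s

theorem R14.unique {s s' m d q : ℕ} (h : R14 s m d q) (h' : R14 s' m d q) : s = s' := by
  obtain ⟨n, hd, hm, hq, h1, h2, h3, -⟩ := h
  obtain ⟨n', -, -, -, h1', -, h3', -⟩ := h'
  have hn : (n : ℝ) = n' := by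
    have : (n : ℝ) * PdR d m 0 = n' * PdR d m 0 := by rw [h1, h1']
    exact mul_right_cancel₀ h2.ne' this
  rw [hn, h3'] at h3
  have hm' : (9 : ℝ) ≤ m := by exact_mod_cast hm
  have hpos : 0 < 8 * ((m : ℝ) + (2 * m * (m - 1) + (if d = 0 then (0 : ℝ) else 2 * (m : ℝ)))) := by
    split_ifs <;> nlinarith
  have h4 : (s' : ℝ) * (8 * ((m : ℝ) + (2 * m * (m - 1) + (if d = 0 then (0 : ℝ) else 2 * (m : ℝ))))) =
      s * (8 * ((m : ℝ) + (2 * m * (m - 1) + (if d = 0 then (0 : ℝ) else 2 * (m : ℝ))))) := by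
    linear_combination h3
  have h5 := mul_right_cancel₀ hpos.ne' h4
  exact_mod_cast h5.symm

section
variable {E : Type*} [NormedAddCommGroup E] [InnerProductSpace ℝ E] {Φ X : Finset E} {n s m d : ℕ} {l y v : E} {c : ℝ}

theorem norm_y14 {e : Fin m → E} (F : Fr Φ m e c d) (hm : 2 ≤ m) (hy : y ∈ Submodule.span ℝ (Φ : Set E))
    (h : ∀ i, |(inner ℝ y (e i) : ℝ)| * (2 * c) = 1) : (inner ℝ y y : ℝ) * (4 * c ^ 2) = m := by
  have hc := F.pos
  rw [F.inner_eq hm hy, Finset.sum_mul]
  have h1 : ∀ i ∈ (Finset.univ : Finset (Fin m)), inner ℝ y (e i) * inner ℝ y (e i) * (4 * c ^ 2) = (1 : ℝ) := by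
    intro i _
    have h2 := h i
    have h3 : (|(inner ℝ y (e i) : ℝ)| * (2 * c)) ^ 2 = 1 := by rw [h2]; norm_num
    rw [mul_pow, sq_abs] at h3
    rw [← h3]
    ring
  rw [Finset.sum_congr rfl h1]
  simp

theorem rel14 {e : Fin m → E} (h : D3 Φ X n s l y v) (hs : ShD1 Φ m e c d l y) : ∃ q, R14 s m d q := by
  obtain ⟨F, hm, hy, z, hz, hz2⟩ := hs
  have hc := F.pos
  have hm2 : 2 ≤ m := by omega
  have hlsp := TF.Sat.span27 h.wd.sat h.wd.l_mem
  obtain ⟨q, hq, hq2⟩ := sum_sq14 hz2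
  have hcas := F.cas_eq hm2 hlsp z hz
  rw [hq2, sum_max14 hz2 hq2, sum_abs_cast14 hz2] at hcas
  have hyy := norm_y14 F hm2 h.inn.y_mem hy
  have hidt := h.inn.idt
  rw [F.finrank hm2, F.card, hcas] at hidt
  -- the identity
  have hid : (n : ℝ) * (4 * m - 8 + 2 * q + 2 * d) * m =
      8 * s * (m + (2 * m * (m - 1) + (if d = 0 then (0 : ℝ) else 2 * (m : ℝ)))) := by
    push_cast at hidt
    rw [← hidt, ← hyy]
    ring
  -- many weights
  have hn : m.choose 2 ≤ n := by
    have h1 := choose_int F h.wd.sat (K := 2) (by omega) h.wd.l_mem z hz (by rw [hz2]; rfl)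
    have h2 := h.wd.card_le
    rcases h1 with h1 | h1
    · exact h1.trans h2
    · have h3 := Nat.choose_succ_right_eq m 2
      have h4 : 3 ≤ m - 2 := by omega
      nlinarith
  have hm9 : (9 : ℝ) ≤ m := by exact_mod_cast hm
  have hn' : (m : ℝ) * (m - 1) ≤ 2 * n := by
    have h1 : m * (m - 1) ≤ 2 * n := by
      rw [Nat.choose_two_right] at hn
      have h3 : m * (m - 1) = 2 * (m * (m - 1) / 2) := by
        rw [Nat.mul_div_cancel' (Nat.even_mul_pred_self m).two_dvd]
      omega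
    have h2 : ((m * (m - 1) : ℕ) : ℝ) ≤ ((2 * n : ℕ) : ℝ) := by exact_mod_cast h1
    rw [Nat.cast_mul, Nat.cast_sub (by omega)] at h2
    push_cast at h2
    exact h2
  have hbig : m ^ 2 ≤ 16 * s := by
    have hq0 : (2 : ℝ) ≤ q := by
      rcases hq with h | h <;> rw [h] <;> norm_num
    have hd0 : (0 : ℝ) ≤ d := Nat.cast_nonneg d
    have hs0 : (0 : ℝ) ≤ s := Nat.cast_nonneg s
    have h1 : (m : ℝ) * (m - 1) * (4 * m - 4) * m ≤ 2 * (n * (4 * m - 8 + 2 * q + 2 * d) * m) := by
      have h2 : (m : ℝ) * (m - 1) * (4 * m - 4) ≤ 2 * n * (4 * m - 8 + 2 * q + 2 * d) := by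
        refine mul_le_mul hn' (by linarith) (by linarith) (by positivity)
      nlinarith
    have h3 : 8 * (s : ℝ) * (m + (2 * m * (m - 1) + (if d = 0 then (0 : ℝ) else 2 * (m : ℝ)))) ≤
        8 * s * (m * (2 * m + 1)) := by
      refine mul_le_mul_of_nonneg_left ?_ (by positivity)
      split_ifs <;> nlinarith
    rw [hid] at h1
    have h4 : (m : ℝ) * ((m - 1) * (4 * m - 4) * m) ≤ m * (16 * s * (2 * m + 1)) := by
      nlinarith
    have h5 := le_of_mul_le_mul_left h4 (by linarith)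
    have h6 : (m : ℝ) ^ 2 * (2 * m + 1) ≤ 16 * s * (2 * m + 1) := by
      nlinarith
    have h7 := le_of_mul_le_mul_right h6 (by linarith)
    exact_mod_cast h7
  -- the dimension
  obtain ⟨σ, t, ht, h1, -, h3, h4⟩ := dim_frR h.wd F (k := fun i => (z i : ℝ)) (by
    intro i
    have := hz i
    unfold cx at this
    rw [div_eq_iff hc.ne'] at this
    rw [this]
    ring)
  have hx : ∀ i, t i * z (σ i) = st14 m q i := by
    refine eq_st14 (x := fun i => t i * z (σ i)) (by omega) ?_ ?_ hq ?_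
    · intro i j hij
      have := h1 i j hij
      exact_mod_cast this
    · have h5 : ∀ i, |t i * z (σ i)| = |z (σ i)| := by
        intro i
        rcases ht i with h | h <;> rw [h] <;> simp
      simp only [h5]
      rw [Equiv.sum_comp σ fun i => |z i|]
      exact hz2
    · have h5 : ∀ i, ((t i * z (σ i) : ℤ) : ℝ) ^ 2 = (z (σ i) : ℝ) ^ 2 := by
        intro i
        rcases ht i with h | h <;> rw [h] <;> push_cast <;> ring
      simp only [h5]
      rw [Equiv.sum_comp σ fun i => (z i : ℝ) ^ 2]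
      exact hq2
  refine ⟨q, n, F.le, hm, hq, ?_, h4, hid, hbig⟩
  rw [h3]
  congr 1
  funext i
  rw [← hx i]
  push_cast
  rfl
end

/-- BLOCK T5 -/
theorem th_D1 : Th SD1 := by
  classical
  refine ⟨75, fun Y => ?_⟩
  have hex : ∀ s ∈ SD1, ∃ p : ℕ × ℕ × ℕ, R14 s p.1 p.2.1 p.2.2 := by
    rintro s ⟨ι, _, Φ, X, n, l, y, v, m, e, c, d, h, hs⟩
    obtain ⟨q, hq⟩ := rel14 h hs
    exact ⟨(m, d, q), hq⟩
  let f : ℕ → ℕ × ℕ × ℕ := fun s => if hs : s ∈ SD1 then (hex s hs).choose else (0, 0, 0)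
  have hf : ∀ s ∈ SD1, R14 s (f s).1 (f s).2.1 (f s).2.2 := by
    intro s hs
    have h1 := (hex s hs).choose_spec
    simp only [f, dif_pos hs]
    exact h1
  have hcard : cn SD1 Y ≤ (Nat.sqrt (16 * Y) + 1) * (3 * 5) := by
    unfold cn
    have h1 : ((Finset.Icc 1 Y).filter (· ∈ SD1)).card ≤
        (Finset.range (Nat.sqrt (16 * Y) + 1) ×ˢ (Finset.range 3 ×ˢ Finset.range 5)).card := by
      refine Finset.card_le_card_of_injOn f ?_ ?_
      · intro s hs
        rw [Finset.mem_coe, Finset.mem_filter, Finset.mem_Icc] at hs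
        obtain ⟨n, hd, hm, hq, -, -, -, hb⟩ := hf s hs.2
        rw [Finset.mem_coe, Finset.mem_product, Finset.mem_product, Finset.mem_range, Finset.mem_range,
          Finset.mem_range]
        refine ⟨?_, by omega, by omega⟩
        rw [Nat.lt_succ_iff, Nat.le_sqrt']
        exact hb.trans (by omega)
      · intro s hs s' hs' hss
        rw [Finset.mem_coe, Finset.mem_filter] at hs hs'
        have h1 := hf s hs.2
        have h2 := hf s' hs'.2
        rw [← hss] at h2
        exact h1.unique h2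
    rw [Finset.card_product, Finset.card_product, Finset.card_range, Finset.card_range, Finset.card_range] at h1
    convert h1 using 2
  rcases Nat.eq_zero_or_pos Y with h0 | hY
  · subst h0
    have h1 : cn SD1 0 = 0 := by
      unfold cn
      rw [Finset.card_eq_zero]
      ext s
      simp
    rw [h1]
    norm_num
  have hY1 : (1 : ℝ) ≤ Y := by exact_mod_cast hY
  have h1 : (cn SD1 Y : ℝ) ≤ (Nat.sqrt (16 * Y) + 1) * 15 := by exact_mod_cast hcard
  have h2 : (Nat.sqrt (16 * Y) : ℝ) ≤ 4 * (Y : ℝ) ^ (2 / 3 : ℝ) := by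
    have h3 : (Nat.sqrt (16 * Y) : ℝ) ^ 2 ≤ 16 * Y := by exact_mod_cast Nat.sqrt_le' (16 * Y)
    have h4 : (Nat.sqrt (16 * Y) : ℝ) ≤ 4 * (Y : ℝ) ^ (1 / 2 : ℝ) := by
      have h5 : (4 * (Y : ℝ) ^ (1 / 2 : ℝ)) ^ 2 = 16 * Y := by
        rw [mul_pow, ← Real.rpow_natCast ((Y : ℝ) ^ (1 / 2 : ℝ)) 2, ← Real.rpow_mul (by linarith)]
        norm_num
      refine le_of_sq_le_sq ?_ (by positivity)
      rw [h5]
      exact h3
    refine h4.trans (mul_le_mul_of_nonneg_left ?_ (by norm_num))
    exact Real.rpow_le_rpow_of_exponent_le hY1 (by norm_num)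
  have h3 : (1 : ℝ) ≤ (Y : ℝ) ^ (2 / 3 : ℝ) := Real.one_le_rpow hY1 (by norm_num)
  linarith

end AG
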